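import Mathlib
import Pool.Agent.Helper968.Zalgaller.Sound
import Pool.Agent.Helper968.Zalgaller.Curve

/-!
A space curve broader than the one conjectured by Zalgaller to be the broadest.
-/

namespace Pool.Agent.Results.MP_ee7495_gt.BroaderCurve

open scoped InnerProductSpace ENNReal

open Pool.Agent.Helper968.Zalgaller

/-- Euclidean space of dimension three. -/
abbrev E3 := EuclideanSpace ℝ (Fin 3)

/-- The length `L(γ)` of a continuous map `γ : [0,1] → ℝ³`: the supremum of the lengths of inscribed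
polygons (possibly `∞`). -/
noncomputable def len (γ : C(unitInterval, E3)) : ℝ≥0∞ :=
  eVariationOn γ Set.univ

/-- The distance `d(γ,u)` of the two supporting planes orthogonal to `u`. -/
noncomputable def dist2 (γ : C(unitInterval, E3)) (u : E3) : ℝ :=
  (⨆ t, ⟪γ t, u⟫_ℝ) - ⨅ t, ⟪γ t, u⟫_ℝ

/-- The breadth `b(γ)`: the minimum of `d(γ,u)` over the unit vectors `u`. -/
noncomputable def breadth (γ : C(unitInterval, E3)) : ℝ :=
  ⨅ u : Metric.sphere (0 : E3) 1, dist2 γ u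

/-- `β₃ = sup {b(γ) : L(γ) = 1}`. -/
noncomputable def beta3 : ℝ :=
  sSup {x : ℝ | ∃ γ : C(unitInterval, E3), len γ = 1 ∧ breadth γ = x}

/-! ### General facts -/

theorem continuous_inner' (γ : C(unitInterval, E3)) (u : E3) :
    Continuous fun t => ⟪γ t, u⟫_ℝ := by fun_prop

theorem bddAbove_inner (γ : C(unitInterval, E3)) (u : E3) :
    BddAbove (Set.range fun t => ⟪γ t, u⟫_ℝ) :=
  (isCompact_range (continuous_inner' γ u)).bddAbove

theorem bddBelow_inner (γ : C(unitInterval, E3)) (u : E3) :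
    BddBelow (Set.range fun t => ⟪γ t, u⟫_ℝ) :=
  (isCompact_range (continuous_inner' γ u)).bddBelow

theorem le_dist2 (γ : C(unitInterval, E3)) (u : E3) (s t : unitInterval) :
    ⟪γ s, u⟫_ℝ - ⟪γ t, u⟫_ℝ ≤ dist2 γ u :=
  sub_le_sub (le_ciSup (bddAbove_inner γ u) s) (ciInf_le (bddBelow_inner γ u) t)

theorem dist2_nonneg (γ : C(unitInterval, E3)) (u : E3) : 0 ≤ dist2 γ u := by
  have := le_dist2 γ u 0 0
  simpa using this

theorem dist2_le {γ : C(unitInterval, E3)} (h : len γ ≠ ⊤) {u : E3} (hu : ‖u‖ = 1) :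
    dist2 γ u ≤ (len γ).toReal := by
  have key : ∀ s t : unitInterval, ⟪γ s, u⟫_ℝ ≤ (len γ).toReal + ⟪γ t, u⟫_ℝ := by
    intro s t
    have h1 : dist (γ s) (γ t) ≤ (len γ).toReal := by
      have h2 : edist (γ s) (γ t) ≤ len γ := eVariationOn.edist_le γ (Set.mem_univ s) (Set.mem_univ t)
      rw [dist_edist]
      exact ENNReal.toReal_mono h h2
    have h3 : ⟪γ s - γ t, u⟫_ℝ ≤ ‖γ s - γ t‖ * ‖u‖ := real_inner_le_norm _ _
    rw [hu, mul_one, ← dist_eq_norm, inner_sub_left] at h3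
    linarith
  have h4 : (⨆ t, ⟪γ t, u⟫_ℝ) ≤ (len γ).toReal + ⨅ t, ⟪γ t, u⟫_ℝ := by
    refine ciSup_le fun s => ?_
    have : ⟪γ s, u⟫_ℝ - (len γ).toReal ≤ ⨅ t, ⟪γ t, u⟫_ℝ := le_ciInf fun t => by
      have := key s t
      linarith
    linarith
  unfold dist2
  linarith

/-- a unit vector -/
noncomputable def e0 : Metric.sphere (0 : E3) 1 :=
  ⟨EuclideanSpace.single 0 1, by simp⟩

instance : Nonempty (Metric.sphere (0 : E3) 1) := ⟨e0⟩

theorem breadth_le_dist2 (γ : C(unitInterval, E3)) (u : Metric.sphere (0 : E3) 1) :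
    breadth γ ≤ dist2 γ u :=
  ciInf_le ⟨0, by rintro _ ⟨v, rfl⟩; exact dist2_nonneg γ v⟩ u

theorem breadth_le_len {γ : C(unitInterval, E3)} (h : len γ ≠ ⊤) :
    breadth γ ≤ (len γ).toReal :=
  (breadth_le_dist2 γ e0).trans (dist2_le h (by simp))

theorem dist2_smul {c : ℝ} (hc : 0 ≤ c) (γ : C(unitInterval, E3)) (u : E3) :
    dist2 (c • γ) u = c * dist2 γ u := by
  have h : ∀ t, ⟪(c • γ) t, u⟫_ℝ = c * ⟪γ t, u⟫_ℝ := fun t => by
    rw [ContinuousMap.smul_apply, real_inner_smul_left]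
  unfold dist2
  simp only [h]
  rw [← Real.mul_iSup_of_nonneg hc, ← Real.mul_iInf_of_nonneg hc, mul_sub]

theorem breadth_smul {c : ℝ} (hc : 0 ≤ c) (γ : C(unitInterval, E3)) :
    breadth (c • γ) = c * breadth γ := by
  unfold breadth
  simp only [dist2_smul hc]
  rw [Real.mul_iInf_of_nonneg hc]

theorem len_smul_le {c : ℝ} (hc : 0 ≤ c) (γ : C(unitInterval, E3)) :
    len (c • γ) ≤ ENNReal.ofReal c * len γ :=
  eVariationOn_smul_le hc γ

theorem len_smul {c : ℝ} (hc : 0 < c) (γ : C(unitInterval, E3)) :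
    len (c • γ) = ENNReal.ofReal c * len γ := by
  refine le_antisymm (len_smul_le hc.le γ) ?_
  have h := len_smul_le (inv_pos.mpr hc).le (c • γ)
  rw [smul_smul, inv_mul_cancel₀ hc.ne', one_smul] at h
  calc ENNReal.ofReal c * len γ
      ≤ ENNReal.ofReal c * (ENNReal.ofReal c⁻¹ * len (c • γ)) := by gcongr
    _ = len (c • γ) := by
        rw [← mul_assoc, ← ENNReal.ofReal_mul hc.le, mul_inv_cancel₀ hc.ne', ENNReal.ofReal_one,
          one_mul]

/-! ### The polygon -/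

/-- the polygon as a curve -/
noncomputable def K : C(unitInterval, E3) := poly 46 fun i => toE (Pn i)

theorem K_wide (u : E3) (hu : ‖u‖ = 1) : (99983 : ℝ) ≤ dist2 K u := by
  obtain ⟨i, j, hi, hj, h⟩ := wide_all u
  obtain ⟨s, hs⟩ := poly_vertex (by norm_num : 0 < 46) (fun i => toE (Pn i)) hi
  obtain ⟨t, ht⟩ := poly_vertex (by norm_num : 0 < 46) (fun i => toE (Pn i)) hj
  have h1 := le_dist2 K u s t
  rw [K, hs, ht] at h1
  rw [hu, mul_one, inner_sub_left] at h
  exact h.trans h1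

theorem K_breadth : (99983 : ℝ) ≤ breadth K :=
  le_ciInf fun u => K_wide u (by simp)

/-- squared lengths of the segments against squared bounds -/
def segOK (i : ℕ) : Bool :=
  nn ((R.getD i 0 : ℤ) * (R.getD i 0 : ℤ) - 1000000 *
    (((Pn (i + 1)).x - (Pn i).x) * ((Pn (i + 1)).x - (Pn i).x) +
     ((Pn (i + 1)).y - (Pn i).y) * ((Pn (i + 1)).y - (Pn i).y) +
     ((Pn (i + 1)).z - (Pn i).z) * ((Pn (i + 1)).z - (Pn i).z)))

theorem segs_ok : (List.range 46).all segOK = true := by decide +kernel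

theorem R_sum : ((List.range 46).map fun i => R.getD i 0).sum = 390550616 := by decide +kernel

theorem seg_le {i : ℕ} (hi : i < 46) :
    ‖toE (Pn (i + 1)) - toE (Pn i)‖ ≤ (R.getD i 0 : ℝ) / 1000 := by
  have h := List.all_eq_true.mp segs_ok i (List.mem_range.mpr hi)
  have h1 := nn_sound h
  have e : toE (Pn (i + 1)) - toE (Pn i) = toE ⟨(Pn (i + 1)).x - (Pn i).x,
      (Pn (i + 1)).y - (Pn i).y, (Pn (i + 1)).z - (Pn i).z⟩ := by
    ext k
    fin_cases k <;> simp [toE]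
  rw [e]
  have h2 := norm_sq_toE ⟨(Pn (i + 1)).x - (Pn i).x,
      (Pn (i + 1)).y - (Pn i).y, (Pn (i + 1)).z - (Pn i).z⟩
  refine le_of_sq_le_sq ?_ (by positivity)
  rw [h2, dot]
  have h3 : (1000000 : ℤ) * (((Pn (i + 1)).x - (Pn i).x) * ((Pn (i + 1)).x - (Pn i).x) +
     ((Pn (i + 1)).y - (Pn i).y) * ((Pn (i + 1)).y - (Pn i).y) +
     ((Pn (i + 1)).z - (Pn i).z) * ((Pn (i + 1)).z - (Pn i).z)) ≤
      (R.getD i 0 : ℤ) * (R.getD i 0 : ℤ) := by linarith
  have h4 : (1000000 : ℝ) * (((((Pn (i + 1)).x - (Pn i).x) * ((Pn (i + 1)).x - (Pn i).x) +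
     ((Pn (i + 1)).y - (Pn i).y) * ((Pn (i + 1)).y - (Pn i).y) +
     ((Pn (i + 1)).z - (Pn i).z) * ((Pn (i + 1)).z - (Pn i).z) : ℤ)) : ℝ) ≤
      (R.getD i 0 : ℝ) * (R.getD i 0 : ℝ) := by exact_mod_cast h3
  rw [div_pow]
  rw [le_div_iff₀ (by norm_num)]
  nlinarith

theorem K_len : len K ≤ ENNReal.ofReal 390550.616 := by
  refine (poly_length 46 fun i => toE (Pn i)).trans (ENNReal.ofReal_le_ofReal ?_)
  calc ∑ i ∈ Finset.range 46, ‖toE (Pn (i + 1)) - toE (Pn i)‖
      ≤ ∑ i ∈ Finset.range 46, (R.getD i 0 : ℝ) / 1000 :=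
        Finset.sum_le_sum fun i hi => seg_le (Finset.mem_range.mp hi)
    _ = 390550.616 := by
        rw [← Finset.sum_div]
        have h : ∑ i ∈ Finset.range 46, R.getD i 0 = 390550616 := by
          rw [← R_sum]
          rfl
        have h' : ∑ i ∈ Finset.range 46, (R.getD i 0 : ℝ) = 390550616 := by exact_mod_cast h
        rw [h']
        norm_num

theorem K_len_ne_top : len K ≠ ⊤ := (K_len.trans_lt ENNReal.ofReal_lt_top).ne

theorem K_len_toReal : (len K).toReal ≤ 390550.616 :=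
  ENNReal.toReal_le_of_le_ofReal (by norm_num) K_len

theorem K_len_ge : (99983 : ℝ) ≤ (len K).toReal := K_breadth.trans (breadth_le_len K_len_ne_top)

/-- The set in the definition of `β₃` is bounded above; there is a curve of length one and breadth
more than `0.256`, and a curve of breadth one and length less than `3.90625 = 1 / 0.256`; hence
`β₃ > 0.256`, and `β₃` is not `1 / 3.921545…`. -/
theorem result :
    BddAbove {x : ℝ | ∃ γ : C(unitInterval, E3), len γ = 1 ∧ breadth γ = x} ∧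
    (∃ γ : C(unitInterval, E3), len γ = 1 ∧ 0.256 < breadth γ) ∧
    (∃ γ : C(unitInterval, E3), breadth γ = 1 ∧ len γ < ENNReal.ofReal 3.90625) ∧
    0.256 < beta3 ∧
    ∀ x : ℝ, 3.921545 ≤ x → x ≤ 3.921546 → beta3 ≠ 1 / x := by
  have hbdd : BddAbove {x : ℝ | ∃ γ : C(unitInterval, E3), len γ = 1 ∧ breadth γ = x} := by
    refine ⟨1, ?_⟩
    rintro x ⟨γ, h1, rfl⟩
    have := breadth_le_len (γ := γ) (by rw [h1]; exact ENNReal.one_ne_top)
    rwa [h1, ENNReal.toReal_one] at this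
  have hL := K_len_ge
  have hL' := K_len_toReal
  have hB := K_breadth
  have hLpos : (0 : ℝ) < (len K).toReal := by linarith
  have hBpos : (0 : ℝ) < breadth K := by linarith
  have hc : ∃ γ : C(unitInterval, E3), len γ = 1 ∧ 0.256 < breadth γ := by
    refine ⟨((len K).toReal)⁻¹ • K, ?_, ?_⟩
    · have e : ENNReal.ofReal (len K).toReal⁻¹ * len K
          = ENNReal.ofReal (len K).toReal⁻¹ * ENNReal.ofReal (len K).toReal := by
        rw [ENNReal.ofReal_toReal K_len_ne_top]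
      rw [len_smul (inv_pos.mpr hLpos), e, ← ENNReal.ofReal_mul (inv_pos.mpr hLpos).le,
        inv_mul_cancel₀ hLpos.ne', ENNReal.ofReal_one]
    · rw [breadth_smul (inv_pos.mpr hLpos).le, inv_mul_eq_div, lt_div_iff₀ hLpos]
      nlinarith
  have hbeta : 0.256 < beta3 := by
    obtain ⟨γ, h1, h2⟩ := hc
    exact h2.trans_le (le_csSup hbdd ⟨γ, h1, rfl⟩)
  refine ⟨hbdd, hc, ?_, hbeta, ?_⟩
  · refine ⟨(breadth K)⁻¹ • K, ?_, ?_⟩
    · rw [breadth_smul (inv_pos.mpr hBpos).le, inv_mul_cancel₀ hBpos.ne']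
    · have e : ENNReal.ofReal (breadth K)⁻¹ * len K
          = ENNReal.ofReal (breadth K)⁻¹ * ENNReal.ofReal (len K).toReal := by
        rw [ENNReal.ofReal_toReal K_len_ne_top]
      rw [len_smul (inv_pos.mpr hBpos), e, ← ENNReal.ofReal_mul (inv_pos.mpr hBpos).le]
      refine (ENNReal.ofReal_lt_ofReal_iff (by norm_num)).mpr ?_
      rw [inv_mul_eq_div, div_lt_iff₀ hBpos]
      nlinarith
  · intro x hx1 hx2 he
    rw [he, lt_div_iff₀ (by linarith)] at hbeta
    linarith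

end Pool.Agent.Results.MP_ee7495_gt.BroaderCurve
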